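import Mathlib

/-!
# Sequences of flips on products
-/

set_option autoImplicit false

namespace Pool.Agent.X264.FL

universe u

/-- A class `Pr` of pairs `X` (isomorphism classes of pairs `(X, Δ)`, projective over a base `S`), the
space `N X = N₁(X/S)`, the closed cone of curves `NE`, the intersection number `K` with `K_X + Δ`, the
classes of covering families of curves `Mov`, and the relation `Flip X v X'`: the contraction of the ray
`ℝ≥0 v` is small (flipping) and `X'` is its flip. -/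
structure Theory where
  Pr : Type u
  N : Pr → Type u
  [acg : ∀ X, AddCommGroup (N X)]
  [mod : ∀ X, Module ℝ (N X)]
  NE : ∀ X, N X → Prop
  Mov : ∀ X, N X → Prop
  K : ∀ X, N X →ₗ[ℝ] ℝ
  Flip : ∀ X, N X → Pr → Prop
  /-- `K_X + Δ` is pseudo-effective over `S`; `H¹(X, O_X) = 0` (and `S` is a point) -/
  Psef : Pr → Prop
  Reg : Pr → Prop
  /-- the product -/
  prod : Pr → Pr → Pr
  /-- the projective line (with `Δ = 0`) -/
  line : Pr

attribute [instance] Theory.acg Theory.mod

namespace Theory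

variable (T : Theory.{u})

/-- the intersection number with `K_X + Δ` -/
def deg (X : T.Pr) (v : T.N X) : ℝ := T.K X v

/-- `v` generates an extremal ray of the cone of curves. -/
def IsExtremal (X : T.Pr) (v : T.N X) : Prop :=
  T.NE X v ∧ v ≠ 0 ∧
    ∀ a b, T.NE X a → T.NE X b → a + b = v → ∃ s : ℝ, a = s • v

/-- `v` generates a `(K_X + Δ)`-negative extremal ray. -/
def IsNegRay (X : T.Pr) (v : T.N X) : Prop := T.IsExtremal X v ∧ T.deg X v < 0

/-- `X'` is the flip of a `(K_X + Δ)`-negative extremal ray of `X`. -/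
def Step (X X' : T.Pr) : Prop := ∃ v, T.IsNegRay X v ∧ T.Flip X v X'

/-- Every sequence of flips starting from `X` is finite. -/
def Terminates (X : T.Pr) : Prop :=
  ¬ ∃ s : ℕ → T.Pr, s 0 = X ∧ ∀ n, T.Step (s n) (s (n + 1))

/-- The cones of curves are pointed and contain `0`. -/
def HasCones : Prop :=
  ∀ X, T.NE X 0 ∧ ∀ a b, T.NE X a → T.NE X b → a + b = 0 → a = 0

/-- The identification `N₁(X × Y) = N₁(X) × N₁(Y)`: the cone of curves is the product of the cones,
`K` is the sum, the contraction of a ray of `X` is `φ × id` and has the flip `X' × Y`, similarly for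
`Y`. -/
def IsProduct (X Y : T.Pr) (p : T.N (T.prod X Y) → T.N X) (q : T.N (T.prod X Y) → T.N Y) : Prop :=
  (∀ v, T.NE _ v ↔ T.NE X (p v) ∧ T.NE Y (q v)) ∧
    (∀ v, T.deg _ v = T.deg X (p v) + T.deg Y (q v)) ∧
    (∀ v Z, q v = 0 → T.IsNegRay X (p v) →
      (T.Flip _ v Z ↔ ∃ X', T.Flip X (p v) X' ∧ Z = T.prod X' Y)) ∧
    ∀ v Z, p v = 0 → T.IsNegRay Y (q v) →
      (T.Flip _ v Z ↔ ∃ Y', T.Flip Y (q v) Y' ∧ Z = T.prod X Y')

/-- `v ↦ (p v, q v)` is a linear isomorphism -/
def IsIso (X Y : T.Pr) (p : T.N (T.prod X Y) → T.N X) (q : T.N (T.prod X Y) → T.N Y) : Prop :=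
  (∀ v w, p (v + w) = p v + p w) ∧ (∀ v w, q (v + w) = q v + q w) ∧
    (∀ (c : ℝ) v, p (c • v) = c • p v) ∧ (∀ (c : ℝ) v, q (c • v) = c • q v) ∧
    (∀ v w, p v = p w → q v = q w → v = w) ∧ ∀ a b, ∃ v, p v = a ∧ q v = b

/-- Products with `Y`, `H¹(Y, O_Y) = 0`. -/
def HasProducts : Prop :=
  ∀ X Y, T.Reg Y → ∃ p q, T.IsIso X Y p q ∧ T.IsProduct X Y p q

/-- `H¹(Y, O_Y) = 0` is preserved by flips. -/
def HasRegular : Prop := ∀ Y Y', T.Reg Y → T.Step Y Y' → T.Reg Y'

/-- The properties which are used for products. -/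
structure IsKnown : Prop where
  cones : T.HasCones
  products : T.HasProducts
  regular : T.HasRegular

/-- If `K_X + Δ` is pseudo-effective then its degree is `≥ 0` on covering families of curves. -/
def HasCovering : Prop := ∀ X v, T.Psef X → T.Mov X v → 0 ≤ T.deg X v

/-- The projective line: `H¹ = 0`, there are no flips (dimension one), and the curves `x × ℙ¹`, of
negative degree, cover `X × ℙ¹`. -/
def HasLine : Prop :=
  T.Reg T.line ∧ (∀ Z, ¬ T.Step T.line Z) ∧ ∃ l : T.N T.line, T.deg _ l < 0 ∧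
    ∀ X p q, T.IsIso X T.line p q → T.IsProduct X T.line p q →
      ∀ v, p v = 0 → q v = l → T.Mov _ v

end Theory

end Pool.Agent.X264.FL
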