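import Pool.Agent.X264.FL.Defs

/-!
# Sequences of flips on products: proofs
-/

set_option autoImplicit false

namespace Pool.Agent.X264.FL

universe u

namespace Theory

variable {T : Theory.{u}}

section Rays

variable {X Y : T.Pr} {p : T.N (T.prod X Y) → T.N X} {q : T.N (T.prod X Y) → T.N Y}

lemma iso_zero (hI : T.IsIso X Y p q) : p 0 = 0 ∧ q 0 = 0 := by
  obtain ⟨-, -, h3, h4, -, -⟩ := hI
  constructor
  · have := h3 0 0
    rwa [zero_smul, zero_smul] at this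
  · have := h4 0 0
    rwa [zero_smul, zero_smul] at this

/-- an extremal ray of the product lies in one of the two factors -/
lemma extremal_cases (hC : T.HasCones) (hI : T.IsIso X Y p q) (hP : T.IsProduct X Y p q)
    {v : T.N (T.prod X Y)} (hv : T.IsExtremal _ v) :
    (q v = 0 ∧ T.IsExtremal X (p v)) ∨ (p v = 0 ∧ T.IsExtremal Y (q v)) := by
  obtain ⟨hp0, hq0⟩ := iso_zero hI
  obtain ⟨hpa, hqa, hps, hqs, hinj, hsur⟩ := hI
  obtain ⟨hNE, -, -, -⟩ := hP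
  obtain ⟨hv1, hv0, hv2⟩ := hv
  obtain ⟨hvX, hvY⟩ := (hNE v).1 hv1
  by_cases hq : q v = 0
  · left
    refine ⟨hq, hvX, fun h0 => hv0 (hinj _ _ (by rw [h0, hp0]) (by rw [hq, hq0])), ?_⟩
    intro a b ha hb hab
    obtain ⟨a', ha1, ha2⟩ := hsur a 0
    obtain ⟨b', hb1, hb2⟩ := hsur b 0
    obtain ⟨s, hs⟩ := hv2 a' b' ((hNE _).2 ⟨by rw [ha1]; exact ha, by rw [ha2]; exact (hC Y).1⟩)
      ((hNE _).2 ⟨by rw [hb1]; exact hb, by rw [hb2]; exact (hC Y).1⟩)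
      (hinj _ _ (by rw [hpa, ha1, hb1, hab]) (by rw [hqa, ha2, hb2, hq, add_zero]))
    exact ⟨s, by rw [← ha1, hs, hps]⟩
  · right
    have hp : p v = 0 := by
      obtain ⟨a', ha1, ha2⟩ := hsur (p v) 0
      obtain ⟨b', hb1, hb2⟩ := hsur 0 (q v)
      obtain ⟨s, hs⟩ := hv2 a' b'
        ((hNE _).2 ⟨by rw [ha1]; exact hvX, by rw [ha2]; exact (hC Y).1⟩)
        ((hNE _).2 ⟨by rw [hb1]; exact (hC X).1, by rw [hb2]; exact hvY⟩)
        (hinj _ _ (by rw [hpa, ha1, hb1, add_zero]) (by rw [hqa, ha2, hb2, zero_add]))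
      have h1 : s • q v = 0 := by rw [← hqs, ← hs, ha2]
      rcases smul_eq_zero.1 h1 with h2 | h2
      · rw [← ha1, hs, h2, zero_smul, hp0]
      · exact absurd h2 hq
    refine ⟨hp, hvY, hq, ?_⟩
    intro a b ha hb hab
    obtain ⟨a', ha1, ha2⟩ := hsur 0 a
    obtain ⟨b', hb1, hb2⟩ := hsur 0 b
    obtain ⟨s, hs⟩ := hv2 a' b' ((hNE _).2 ⟨by rw [ha1]; exact (hC X).1, by rw [ha2]; exact ha⟩)
      ((hNE _).2 ⟨by rw [hb1]; exact (hC X).1, by rw [hb2]; exact hb⟩)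
      (hinj _ _ (by rw [hpa, ha1, hb1, hp, add_zero]) (by rw [hqa, ha2, hb2, hab]))
    exact ⟨s, by rw [← ha2, hs, hqs]⟩

/-- an extremal ray of the first factor is extremal in the product -/
lemma extremal_left (hC : T.HasCones) (hI : T.IsIso X Y p q) (hP : T.IsProduct X Y p q)
    {v : T.N (T.prod X Y)} (hq : q v = 0) (hv : T.IsExtremal X (p v)) : T.IsExtremal _ v := by
  obtain ⟨hp0, hq0⟩ := iso_zero hI
  obtain ⟨hpa, hqa, hps, hqs, hinj, hsur⟩ := hI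
  obtain ⟨hNE, -, -, -⟩ := hP
  obtain ⟨hv1, hv0, hv2⟩ := hv
  refine ⟨(hNE v).2 ⟨hv1, by rw [hq]; exact (hC Y).1⟩, fun h0 => hv0 (by rw [h0, hp0]), ?_⟩
  intro a b ha hb hab
  obtain ⟨haX, haY⟩ := (hNE a).1 ha
  obtain ⟨hbX, hbY⟩ := (hNE b).1 hb
  obtain ⟨s, hs⟩ := hv2 _ _ haX hbX (by rw [← hpa, hab])
  have h0 : q a = 0 := (hC Y).2 _ _ haY hbY (by rw [← hqa, hab, hq])
  exact ⟨s, hinj _ _ (by rw [hs, hps]) (by rw [h0, hqs, hq, smul_zero])⟩

lemma extremal_right (hC : T.HasCones) (hI : T.IsIso X Y p q) (hP : T.IsProduct X Y p q)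
    {v : T.N (T.prod X Y)} (hp : p v = 0) (hv : T.IsExtremal Y (q v)) : T.IsExtremal _ v := by
  obtain ⟨hp0, hq0⟩ := iso_zero hI
  obtain ⟨hpa, hqa, hps, hqs, hinj, hsur⟩ := hI
  obtain ⟨hNE, -, -, -⟩ := hP
  obtain ⟨hv1, hv0, hv2⟩ := hv
  refine ⟨(hNE v).2 ⟨by rw [hp]; exact (hC X).1, hv1⟩, fun h0 => hv0 (by rw [h0, hq0]), ?_⟩
  intro a b ha hb hab
  obtain ⟨haX, haY⟩ := (hNE a).1 ha
  obtain ⟨hbX, hbY⟩ := (hNE b).1 hb
  obtain ⟨s, hs⟩ := hv2 _ _ haY hbY (by rw [← hqa, hab])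
  have h0 : p a = 0 := (hC X).2 _ _ haX hbX (by rw [← hpa, hab, hp])
  exact ⟨s, hinj _ _ (by rw [h0, hps, hp, smul_zero]) (by rw [hs, hqs])⟩

end Rays

lemma deg_zero (X : T.Pr) : T.deg X 0 = 0 := by
  simp [deg]

/-- the flips of a product -/
theorem step_prod (hT : T.IsKnown) {X Y : T.Pr} (hY : T.Reg Y) (Z : T.Pr) :
    T.Step (T.prod X Y) Z ↔ (∃ X', T.Step X X' ∧ Z = T.prod X' Y) ∨
      ∃ Y', T.Step Y Y' ∧ Z = T.prod X Y' := by
  obtain ⟨p, q, hI, hP⟩ := hT.products X Y hY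
  have hP' := hP
  obtain ⟨-, hdeg, hX, hYf⟩ := hP'
  constructor
  · rintro ⟨v, ⟨hv, hneg⟩, hf⟩
    rcases extremal_cases hT.cones hI hP hv with ⟨hq, he⟩ | ⟨hp, he⟩
    · left
      have hn : T.IsNegRay X (p v) := by
        refine ⟨he, ?_⟩
        rw [hdeg, hq, deg_zero, add_zero] at hneg
        exact hneg
      obtain ⟨X', hX', rfl⟩ := (hX v Z hq hn).1 hf
      exact ⟨X', ⟨_, hn, hX'⟩, rfl⟩
    · right
      have hn : T.IsNegRay Y (q v) := by
        refine ⟨he, ?_⟩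
        rw [hdeg, hp, deg_zero, zero_add] at hneg
        exact hneg
      obtain ⟨Y', hY', rfl⟩ := (hYf v Z hp hn).1 hf
      exact ⟨Y', ⟨_, hn, hY'⟩, rfl⟩
  · rintro (⟨X', ⟨a, ha, hf⟩, rfl⟩ | ⟨Y', ⟨b, hb, hf⟩, rfl⟩)
    · obtain ⟨v, hv1, hv2⟩ := hI.2.2.2.2.2 a 0
      subst hv1
      refine ⟨v, ⟨extremal_left hT.cones hI hP hv2 ha.1, ?_⟩, (hX v _ hv2 ha).2 ⟨X', hf, rfl⟩⟩
      rw [hdeg, hv2, deg_zero, add_zero]
      exact ha.2
    · obtain ⟨v, hv1, hv2⟩ := hI.2.2.2.2.2 0 b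
      subst hv2
      refine ⟨v, ⟨extremal_right hT.cones hI hP hv1 hb.1, ?_⟩, (hYf v _ hv1 hb).2 ⟨Y', hf, rfl⟩⟩
      rw [hdeg, hv1, deg_zero, zero_add]
      exact hb.2

lemma terminates_iff_acc (X : T.Pr) : T.Terminates X ↔ Acc (fun A B => T.Step B A) X := by
  have h := not_acc_iff_exists_descending_chain (r := fun A B => T.Step B A) (x := X)
  unfold Terminates
  exact ⟨fun h1 => by_contra fun h2 => h1 (h.1 h2), fun h1 h2 => h.2 h2 h1⟩

/-- termination for a product -/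
theorem terminates_prod (hT : T.IsKnown) {X Y : T.Pr} (hY : T.Reg Y) :
    T.Terminates (T.prod X Y) ↔ T.Terminates X ∧ T.Terminates Y := by
  constructor
  · intro h
    constructor
    · rintro ⟨s, h0, hs⟩
      exact h ⟨fun n => T.prod (s n) Y, congrArg (fun A => T.prod A Y) h0,
        fun n => (step_prod hT hY _).2 (Or.inl ⟨_, hs n, rfl⟩)⟩
    · rintro ⟨s, h0, hs⟩
      have hreg : ∀ n, T.Reg (s n) := by
        intro n
        induction n with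
        | zero => rw [h0]; exact hY
        | succ n ih => exact hT.regular _ _ ih (hs n)
      exact h ⟨fun n => T.prod X (s n), congrArg (fun A => T.prod X A) h0,
        fun n => (step_prod hT (hreg n) _).2 (Or.inr ⟨_, hs n, rfl⟩)⟩
  · rintro ⟨h1, h2⟩
    rw [terminates_iff_acc] at h1 h2 ⊢
    induction h1 generalizing Y with
    | intro X _ ihX =>
      induction h2 with
      | intro Y hYacc ihY =>
        refine Acc.intro _ fun Z hZ => ?_
        rcases (step_prod hT hY Z).1 hZ with ⟨X', hX', rfl⟩ | ⟨Y', hY', rfl⟩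
        · exact ihX X' hX' hY (Acc.intro _ hYacc)
        · exact ihY Y' hY' (hT.regular _ _ hY hY')

lemma not_psef (hc : T.HasCovering) (hl : T.HasLine) (hT : T.IsKnown) (X : T.Pr) :
    ¬ T.Psef (T.prod X T.line) := by
  intro h
  obtain ⟨hreg, -, l, hlneg, hmov⟩ := hl
  obtain ⟨p, q, hI, hP⟩ := hT.products X T.line hreg
  obtain ⟨v, hv1, hv2⟩ := hI.2.2.2.2.2 0 l
  have h1 := hc _ v h (hmov X p q hI hP v hv1 hv2)
  rw [hP.2.1, hv1, hv2, deg_zero, zero_add] at h1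
  exact absurd h1 (not_le.2 hlneg)

/-- the pair `X × ℙ¹` -/
theorem line_iff (hT : T.IsKnown) (hl : T.HasLine) (X : T.Pr) :
    T.Terminates (T.prod X T.line) ↔ T.Terminates X := by
  rw [terminates_prod hT hl.1]
  refine ⟨fun h => h.1, fun h => ⟨h, ?_⟩⟩
  rintro ⟨s, h0, hs⟩
  have := hs 0
  rw [h0] at this
  exact hl.2.1 _ this

/-- reduction to non-pseudo-effective pairs -/
theorem main (hT : T.IsKnown) (hc : T.HasCovering) (hl : T.HasLine) :
    (∀ X, T.Terminates X) ↔ ∀ X, ¬ T.Psef X → T.Terminates X :=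
  ⟨fun h X _ => h X, fun h X => (line_iff hT hl X).1 (h _ (not_psef hc hl hT X))⟩

end Theory

end Pool.Agent.X264.FL
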